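import Mathlib

set_option autoImplicit false

/-!
A maximum principle for finitely many absolutely continuous functions.
-/

namespace Pool.Agent.Lib_helper27.Persist

open Filter Topology Set MeasureTheory

theorem ac_of_dist_le {ι : Type} [Fintype ι] {a b : ℝ} (f : ι → ℝ → ℝ) (h : ℝ → ℝ)
    (hf : ∀ i, AbsolutelyContinuousOnInterval (f i) a b)
    (hd : ∀ s t, dist (h s) (h t) ≤ ∑ i, dist (f i s) (f i t)) :
    AbsolutelyContinuousOnInterval h a b := by
  unfold AbsolutelyContinuousOnInterval at hf ⊢
  have h1 := tendsto_finsetSum (Finset.univ : Finset ι) fun i _ => hf i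
  rw [Finset.sum_const_zero] at h1
  refine tendsto_of_tendsto_of_tendsto_of_le_of_le tendsto_const_nhds h1 ?_ ?_
  · intro E
    exact Finset.sum_nonneg fun _ _ => dist_nonneg
  · intro E
    dsimp only
    rw [Finset.sum_comm]
    exact Finset.sum_le_sum fun j _ => hd _ _

/-- The larger of `0` and of the functions `f a`. -/
noncomputable def posMax {ι : Type} [Fintype ι] (f : ι → ℝ → ℝ) (t : ℝ) : ℝ :=
  (Finset.univ : Finset (Option ι)).sup' ⟨none, Finset.mem_univ _⟩
    fun o => o.elim 0 fun a => f a t

section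

variable {ι : Type} [Fintype ι] (f : ι → ℝ → ℝ)

theorem posMax_nonneg (t : ℝ) : 0 ≤ posMax f t :=
  Finset.le_sup' (fun o : Option ι => o.elim 0 fun a => f a t) (Finset.mem_univ none)

theorem le_posMax (a : ι) (t : ℝ) : f a t ≤ posMax f t :=
  Finset.le_sup' (fun o : Option ι => o.elim 0 fun a => f a t) (Finset.mem_univ (some a))

theorem posMax_le {t c : ℝ} (h0 : 0 ≤ c) (h : ∀ a, f a t ≤ c) : posMax f t ≤ c := by
  refine Finset.sup'_le _ _ fun o _ => ?_
  cases o with
  | none => exact h0
  | some a => exact h a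

theorem posMax_cases (t : ℝ) : posMax f t = 0 ∨ ∃ a, posMax f t = f a t := by
  obtain ⟨o, _, ho⟩ := Finset.exists_mem_eq_sup' (⟨none, Finset.mem_univ _⟩ :
    (Finset.univ : Finset (Option ι)).Nonempty) (fun o : Option ι => o.elim 0 fun a => f a t)
  cases o with
  | none => exact Or.inl ho
  | some a => exact Or.inr ⟨a, ho⟩

theorem posMax_le_add (s t : ℝ) : posMax f s ≤ posMax f t + ∑ i, dist (f i s) (f i t) := by
  have hnn : 0 ≤ ∑ i, dist (f i s) (f i t) := Finset.sum_nonneg fun _ _ => dist_nonneg
  refine posMax_le f (add_nonneg (posMax_nonneg f t) hnn) fun a => ?_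
  have h1 : f a s - f a t ≤ dist (f a s) (f a t) := by
    rw [Real.dist_eq]
    exact le_abs_self _
  have h2 : dist (f a s) (f a t) ≤ ∑ i, dist (f i s) (f i t) :=
    Finset.single_le_sum (f := fun i => dist (f i s) (f i t)) (fun _ _ => dist_nonneg)
      (Finset.mem_univ a)
  have h3 := le_posMax f a t
  linarith

theorem posMax_ac {a b : ℝ} (hf : ∀ i, AbsolutelyContinuousOnInterval (f i) a b) :
    AbsolutelyContinuousOnInterval (posMax f) a b := by
  refine ac_of_dist_le f (posMax f) hf fun s t => ?_
  rw [Real.dist_eq, abs_le]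
  have h1 := posMax_le_add f s t
  have h2 := posMax_le_add f t s
  have h3 : ∑ i, dist (f i t) (f i s) = ∑ i, dist (f i s) (f i t) :=
    Finset.sum_congr rfl fun i _ => dist_comm _ _
  constructor <;> linarith

/-- A maximum principle for finitely many absolutely continuous functions: if, near the level `0`,
at almost every time every function that attains the maximum has nonpositive derivative, the
maximum stays nonpositive. -/
theorem max_invariance_ac (I : Set ℝ) (hI : I.OrdConnected) (h0 : (0 : ℝ) ∈ I)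
    (f' : ι → ℝ → ℝ) (hf : ∀ a, ∀ t ∈ I, AbsolutelyContinuousOnInterval (f a) 0 t)
    (ε : ℝ) (hε : 0 < ε) (hstart : ∀ a, f a 0 ≤ 0)
    (hact : ∀ᵐ t : ℝ, t ∈ I → 0 ≤ t → (∀ a, HasDerivWithinAt (f a) (f' a t) I t) ∧
      ((∀ a, f a t ≤ ε) → ∀ a, 0 ≤ f a t → (∀ a', f a' t ≤ f a t) → f' a t ≤ 0)) :
    ∀ t ∈ I, 0 ≤ t → ∀ a, f a t ≤ 0 := by
  intro t₁ ht₁ h0t₁
  have hsub : Icc (0 : ℝ) t₁ ⊆ I := hI.out h0 ht₁
  have hac : AbsolutelyContinuousOnInterval (posMax f) 0 t₁ :=
    posMax_ac f fun a => hf a t₁ ht₁
  have hcont : ContinuousOn (posMax f) (Icc (0 : ℝ) t₁) := by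
    have := hac.continuousOn
    rwa [uIcc_of_le h0t₁] at this
  -- the positive part of the maximum does not grow below the level `ε`
  have hmono : ∀ u v, 0 ≤ u → u ≤ v → v ≤ t₁ → (∀ t ∈ Icc u v, posMax f t ≤ ε) →
      posMax f v ≤ posMax f u := by
    intro u v hu huv hv hb
    have hac' : AbsolutelyContinuousOnInterval (posMax f) u v :=
      hac.mono (by
        rw [uIcc_of_le huv, uIcc_of_le h0t₁]
        exact Icc_subset_Icc hu hv)
    have hint := hac'.integral_deriv_eq_sub
    have hneg : 0 ≤ ∫ t in u..v, -deriv (posMax f) t := by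
      refine intervalIntegral.integral_nonneg_of_ae_restrict huv ?_
      have hne0 : ∀ᵐ t : ℝ, t ≠ 0 := Measure.ae_ne volume 0
      have hne1 : ∀ᵐ t : ℝ, t ≠ t₁ := Measure.ae_ne volume t₁
      rw [EventuallyLE, ae_restrict_iff' measurableSet_Icc]
      filter_upwards [hact, hne0, hne1] with t hat ht0 ht1 htuv
      have htpos : 0 < t := lt_of_le_of_ne (hu.trans htuv.1) (Ne.symm ht0)
      have htlt : t < t₁ := lt_of_le_of_ne (htuv.2.trans hv) ht1
      have htI : t ∈ I := hsub ⟨htpos.le, htlt.le⟩
      have hIn : I ∈ 𝓝 t :=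
        Filter.mem_of_superset (Ioo_mem_nhds htpos htlt) fun z hz => hsub ⟨hz.1.le, hz.2.le⟩
      obtain ⟨hder, hle⟩ := hat htI htpos.le
      have hGt : posMax f t ≤ ε := hb t htuv
      change 0 ≤ -deriv (posMax f) t
      by_cases hdiff : DifferentiableAt ℝ (posMax f) t
      · rcases posMax_cases f t with hz | ⟨a, ha⟩
        · have hmin : IsLocalMin (posMax f) t := by
            refine Filter.Eventually.of_forall fun s => ?_
            rw [hz]
            exact posMax_nonneg f s
          rw [hmin.deriv_eq_zero]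
          simp
        · have hda : HasDerivAt (f a) (f' a t) t := (hder a).hasDerivAt hIn
          have hmin : IsLocalMin (fun s => posMax f s - f a s) t := by
            refine Filter.Eventually.of_forall fun s => ?_
            change posMax f t - f a t ≤ posMax f s - f a s
            rw [ha, sub_self]
            linarith [le_posMax f a s]
          have hd0 := hmin.hasDerivAt_eq_zero (hdiff.hasDerivAt.sub hda)
          have h1 : f' a t ≤ 0 := by
            apply hle (fun a' => (le_posMax f a' t).trans hGt) a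
            · rw [← ha]
              exact posMax_nonneg f t
            · intro a'
              rw [← ha]
              exact le_posMax f a' t
          linarith
      · rw [deriv_zero_of_not_differentiableAt hdiff]
        simp
    rw [intervalIntegral.integral_neg, hint] at hneg
    linarith
  -- continuation
  have hall : Icc (0 : ℝ) t₁ ⊆ {t | posMax f t ≤ 0} := by
    apply IsClosed.Icc_subset_of_forall_mem_nhdsWithin
    · have heq : {t | posMax f t ≤ 0} ∩ Icc (0 : ℝ) t₁ =
          Icc (0 : ℝ) t₁ ∩ (posMax f) ⁻¹' Iic 0 := by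
        ext t
        simp only [mem_inter_iff, mem_setOf_eq, mem_preimage, mem_Iic]
        exact and_comm
      rw [heq]
      exact hcont.preimage_isClosed_of_isClosed isClosed_Icc isClosed_Iic
    · exact posMax_le f le_rfl hstart
    · rintro x ⟨hx, hx0, hx1⟩
      have hx' : posMax f x ≤ 0 := hx
      have hcx : ContinuousWithinAt (posMax f) (Icc (0 : ℝ) t₁) x := hcont x ⟨hx0, hx1.le⟩
      have hev : ∀ᶠ y in 𝓝[Icc (0 : ℝ) t₁] x, posMax f y < ε :=
        hcx.eventually (Iio_mem_nhds (lt_of_le_of_lt hx' hε))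
      rw [eventually_nhdsWithin_iff, Metric.eventually_nhds_iff] at hev
      obtain ⟨η, hη, hev⟩ := hev
      have hmem : Ioo x (min (x + η) t₁) ∈ 𝓝[>] x :=
        Ioo_mem_nhdsGT (lt_min (by linarith) hx1)
      filter_upwards [hmem] with y hy
      have hy1 : y < x + η := lt_of_lt_of_le hy.2 (min_le_left _ _)
      have hy2 : y < t₁ := lt_of_lt_of_le hy.2 (min_le_right _ _)
      refine (hmono x y hx0 hy.1.le hy2.le fun t ht => ?_).trans hx'
      refine (hev ?_ ⟨hx0.trans ht.1, ht.2.trans hy2.le⟩).le
      rw [Real.dist_eq, abs_lt]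
      constructor <;> linarith [ht.1, ht.2]
  intro a
  exact (le_posMax f a t₁).trans (hall ⟨h0t₁, le_rfl⟩)

end

end Pool.Agent.Lib_helper27.Persist
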