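import Pool.Agent.Lib_helper43.Persist
import Pool.Agent.Lib_helper27.Persist.AC

set_option autoImplicit false

/-!
Confinement for absolutely continuous solutions.
-/

namespace Pool.Agent.Lib_helper27.Persist

open Finset Pool.Agent.Lib_helper43

theorem ac_const {c a b : ℝ} : AbsolutelyContinuousOnInterval (fun _ => c : ℝ → ℝ) a b := by
  refine LipschitzOnWith.absolutelyContinuousOnInterval (K := 0) ?_
  exact (LipschitzWith.const c).lipschitzOnWith

theorem ac_sum {ι : Type} (s : Finset ι) {a b : ℝ} (f : ι → ℝ → ℝ)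
    (hf : ∀ i ∈ s, AbsolutelyContinuousOnInterval (f i) a b) :
    AbsolutelyContinuousOnInterval (fun t => ∑ i ∈ s, f i t) a b := by
  classical
  induction s using Finset.induction_on with
  | empty => simpa using ac_const
  | insert i s hi ih =>
    have h1 := (hf i (Finset.mem_insert_self i s)).add
      (ih fun j hj => hf j (Finset.mem_insert_of_mem hj))
    refine (show (fun t => ∑ j ∈ insert i s, f j t) = f i + fun t => ∑ j ∈ s, f j t from ?_) ▸ h1
    ext t
    rw [Finset.sum_insert hi]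
    rfl

/-- Uniform confinement for absolutely continuous solutions. -/
theorem confinement_ac (n : ℕ) (E : Finset ((Fin n → ℝ) × (Fin n → ℝ)))
    (hrev : ∀ e ∈ E, Relation.ReflTransGen (fun u v => (u, v) ∈ E) e.2 e.1)
    (ε : ℝ) (hε : 0 < ε) (R : ℝ) :
    ∃ L : ℝ, ∀ (k : (Fin n → ℝ) × (Fin n → ℝ) → ℝ → ℝ),
      ∀ (I : Set ℝ), I.OrdConnected → (0 : ℝ) ∈ I →
      (∀ e ∈ E, ∀ t ∈ I, ε ≤ k e t ∧ k e t ≤ 1 / ε) →
      ∀ (x : ℝ → Fin n → ℝ),
        (∀ t ∈ I, ∀ i : Fin n, 0 < x t i) →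
        (∀ t ∈ I, ∀ i : Fin n, AbsolutelyContinuousOnInterval (fun s => x s i) 0 t) →
        (∀ᵐ t : ℝ, t ∈ I → HasDerivWithinAt x
            (∑ e ∈ E, (k e t * ∏ i : Fin n, (x t i) ^ (e.1 i)) • (e.2 - e.1)) I t) →
        (∀ i, |Real.log (x 0 i)| ≤ R) →
        ∀ t ∈ I, 0 ≤ t → ∀ i : Fin n, |Real.log (x t i)| ≤ L := by
  classical
  rcases Nat.eq_zero_or_pos n with hn | hn
  · subst hn
    refine ⟨0, ?_⟩
    intro _ _ _ _ _ _ _ _ _ _ _ _ _ i
    exact Fin.elim0 i
  set D : Finset (Fin n → ℝ) := (E ×ˢ E).image (fun p => p.2.1 - p.1.1) with hD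
  set M : ℝ := (E.card : ℝ) / ε ^ 2 with hM
  have hMexp : (E.card : ℝ) / ε ^ 2 ≤ Real.exp M := by
    have := Real.add_one_le_exp M
    linarith
  obtain ⟨F, δ, L, hδ, hF1, hF2, hF3⟩ := exists_region n hn D M R
  refine ⟨L, ?_⟩
  intro k I hI h0 hk x hx hac hd hstart
  have hval : ∀ (p : (Fin n → ℝ) × ℝ), ∀ t ∈ I,
      Lib_helper43.val p (fun i => Real.log (x t i)) = (∑ j, p.1 j * x t j) - p.2 := by
    intro p t ht
    simp only [Lib_helper43.val]
    congr 1
    refine Finset.sum_congr rfl fun j _ => ?_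
    rw [Real.exp_log (hx t ht j)]
  have hmain := max_invariance_ac (ι := F)
    (fun p t => (∑ j, (p : (Fin n → ℝ) × ℝ).1 j * x t j) - (p : (Fin n → ℝ) × ℝ).2) I hI h0
    (fun p t => ∑ j, (p : (Fin n → ℝ) × ℝ).1 j *
      (∑ e ∈ E, (k e t * ∏ i : Fin n, (x t i) ^ (e.1 i)) • (e.2 - e.1)) j)
    (by
      intro p t ht
      refine AbsolutelyContinuousOnInterval.sub (f := fun t => ∑ j, (p : (Fin n → ℝ) × ℝ).1 j * x t j)
        (g := fun _ => (p : (Fin n → ℝ) × ℝ).2) ?_ ac_const
      refine ac_sum Finset.univ _ fun j _ => ?_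
      exact (hac t ht j).const_mul _)
    δ hδ
    (by
      intro p
      have := hF1 (fun i => Real.log (x 0 i)) hstart p.1 p.2
      rw [hval _ 0 h0] at this
      exact this)
    (by
      filter_upwards [hd] with t hdt ht h0t
      refine ⟨?_, ?_⟩
      · intro p
        apply HasDerivWithinAt.sub_const
        apply HasDerivWithinAt.fun_sum
        intro j _
        have := (hasDerivWithinAt_pi.mp (hdt ht)) j
        exact this.const_mul _
      intro hall p hp0 hpmax
      have hact := hF3 (fun i => Real.log (x t i))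
        (fun p' hp' => by rw [hval _ t ht]; exact hall ⟨p', hp'⟩)
        p.1 p.2 (by rw [hval _ t ht]; exact hp0)
        (fun p' hp' => by rw [hval _ t ht, hval _ t ht]; exact hpmax ⟨p', hp'⟩)
      have hdrift := drift_nonpos E (fun s : Fin n → ℝ => ∑ j, (p : (Fin n → ℝ) × ℝ).1 j * s j)
        (fun s => ∏ i, (x t i) ^ (s i)) (fun e => k e t) ε M hε hrev
        (fun e he => hk e he t ht)
        (fun e _ => Finset.prod_pos fun i _ => Real.rpow_pos_of_pos (hx t ht i) _)
        hMexp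
        (by
          intro e he e' he' hlt
          have hd' : e'.1 - e.1 ∈ D := by
            rw [hD]
            exact Finset.mem_image.mpr ⟨(e, e'), Finset.mem_product.mpr ⟨he, he'⟩, rfl⟩
          have h1 := hact _ hd' (by
            have : ∑ j, (p : (Fin n → ℝ) × ℝ).1 j * (e'.1 - e.1) j =
              (∑ j, (p : (Fin n → ℝ) × ℝ).1 j * e'.1 j) - ∑ j, (p : (Fin n → ℝ) × ℝ).1 j * e.1 j := by
              rw [← Finset.sum_sub_distrib]
              refine Finset.sum_congr rfl fun j _ => ?_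
              simp [mul_sub]
            rw [this]; linarith)
          rw [monomial_eq _ (hx t ht), monomial_eq _ (hx t ht), ← Real.exp_add]
          apply Real.exp_le_exp.mpr
          have h2 : ∑ j, Real.log (x t j) * (e'.1 - e.1) j =
              (∑ i, Real.log (x t i) * e'.1 i) - ∑ i, Real.log (x t i) * e.1 i := by
            rw [← Finset.sum_sub_distrib]
            refine Finset.sum_congr rfl fun j _ => ?_
            simp [mul_sub]
          rw [h2] at h1
          linarith)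
      refine le_of_eq_of_le ?_ hdrift
      simp only [Finset.sum_apply, Pi.smul_apply, Pi.sub_apply, smul_eq_mul, Finset.mul_sum]
      rw [Finset.sum_comm]
      refine Finset.sum_congr rfl fun e _ => ?_
      rw [← Finset.sum_sub_distrib, Finset.mul_sum]
      refine Finset.sum_congr rfl fun j _ => ?_
      ring)
  intro t ht h0t i
  apply hF2 (fun i => Real.log (x t i))
  intro p hp
  rw [hval _ t ht]
  exact hmain t ht h0t ⟨p, hp⟩

/-- A differentiable solution is absolutely continuous. -/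
theorem ac_of_hasDeriv {n : ℕ} {ι : Type} [Fintype ι] (s v : ι → Fin n → ℝ) (ε : ℝ)
    (k : ι → ℝ → ℝ) (I : Set ℝ) (hI : I.OrdConnected)
    (hk : ∀ e, ∀ t ∈ I, ε ≤ k e t ∧ k e t ≤ 1 / ε) (hε : 0 < ε)
    (x : ℝ → Fin n → ℝ) (hx : ∀ t ∈ I, ∀ i : Fin n, 0 < x t i)
    (hd : ∀ t ∈ I, HasDerivWithinAt x (∑ e, (k e t * ∏ i : Fin n, (x t i) ^ (s e i)) • v e) I t)
    {a b : ℝ} (ha : a ∈ I) (hb : b ∈ I) (i : Fin n) :
    AbsolutelyContinuousOnInterval (fun t => x t i) a b := by
  have hsub : Set.uIcc a b ⊆ I := by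
    rcases le_total a b with h | h
    · rw [Set.uIcc_of_le h]
      exact hI.out ha hb
    · rw [Set.uIcc_of_ge h]
      exact hI.out hb ha
  have hcx : ContinuousOn x (Set.uIcc a b) := fun t ht =>
    ((hd t (hsub ht)).continuousWithinAt).mono hsub
  have hbd : ∀ e : ι, ∃ B : ℝ, ∀ t ∈ Set.uIcc a b, ‖∏ i : Fin n, (x t i) ^ (s e i)‖ ≤ B := by
    intro e
    refine isCompact_uIcc.exists_bound_of_continuousOn ?_
    refine continuousOn_finsetProd _ fun i _ => ?_
    refine ContinuousOn.rpow_const ?_ fun t ht => Or.inl (hx t (hsub ht) i).ne'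
    exact (continuous_apply i).comp_continuousOn hcx
  choose B hB using hbd
  have hC : ∀ t ∈ Set.uIcc a b,
      ‖∑ e, (k e t * ∏ i : Fin n, (x t i) ^ (s e i)) • v e‖ ≤
        ∑ e, (1 / ε * |B e|) * ‖v e‖ := by
    intro t ht
    refine (norm_sum_le _ _).trans (Finset.sum_le_sum fun e _ => ?_)
    rw [norm_smul, norm_mul]
    refine mul_le_mul_of_nonneg_right ?_ (norm_nonneg _)
    have h1 := hk e t (hsub ht)
    have h2 : ‖k e t‖ ≤ 1 / ε := by
      rw [Real.norm_eq_abs, abs_of_nonneg (hε.le.trans h1.1)]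
      exact h1.2
    exact mul_le_mul h2 ((hB e t ht).trans (le_abs_self _)) (norm_nonneg _) (by positivity)
  have hCn : 0 ≤ ∑ e, (1 / ε * |B e|) * ‖v e‖ :=
    Finset.sum_nonneg fun e _ => by positivity
  have hlip : LipschitzOnWith ⟨∑ e, (1 / ε * |B e|) * ‖v e‖, hCn⟩ x (Set.uIcc a b) := by
    refine (convex_uIcc a b).lipschitzOnWith_of_nnnorm_hasDerivWithin_le
      (fun t ht => (hd t (hsub ht)).mono hsub) fun t ht => ?_
    exact_mod_cast hC t ht
  have hlip2 : LipschitzOnWith (1 * ⟨∑ e, (1 / ε * |B e|) * ‖v e‖, hCn⟩)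
      (fun t => x t i) (Set.uIcc a b) :=
    (LipschitzWith.eval (α := fun _ : Fin n => ℝ) i).comp_lipschitzOnWith hlip
  exact hlip2.absolutelyContinuousOnInterval

end Pool.Agent.Lib_helper27.Persist
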